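import Mathlib

/-!
# Congruence subgroups for triangular automorphisms of free groups
-/

set_option autoImplicit false

namespace Pool.Agent.R387.TC

/-- the free group of rank `n` -/
abbrev F (n : ℕ) : Type := FreeGroup (Fin n)

/-- the intersection of the kernels of all homomorphisms to `S` -/
def core (n : ℕ) (S : Type) [Group S] : Subgroup (F n) := ⨅ f : F n →* S, f.ker

theorem mem_core {n : ℕ} {S : Type} [Group S] {x : F n} :
    x ∈ core n S ↔ ∀ f : F n →* S, f x = 1 := by
  unfold core
  rw [Subgroup.mem_iInf]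
  rfl

instance finHom (n : ℕ) (S : Type) [Group S] [Finite S] : Finite (F n →* S) :=
  Finite.of_equiv _ (FreeGroup.lift (α := Fin n) (β := S))

theorem core_char (n : ℕ) (S : Type) [Group S] : (core n S).Characteristic := by
  rw [Subgroup.characteristic_iff_le_comap]
  intro φ x hx
  rw [Subgroup.mem_comap]
  rw [mem_core] at hx ⊢
  exact fun f => hx (f.comp φ.toMonoidHom)

theorem core_fin (n : ℕ) (S : Type) [Group S] [Finite S] : (core n S).FiniteIndex := by
  unfold core
  exact Subgroup.finiteIndex_iInf fun f => inferInstance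

/-- `ψ` acts trivially modulo `K` -/
def Triv {n : ℕ} (K : Subgroup (F n)) (ψ : MulAut (F n)) : Prop := ∀ x, ψ x * x⁻¹ ∈ K

/-- `ψ` acts as conjugation by `g` modulo `K` -/
def ConjMod {n : ℕ} (K : Subgroup (F n)) (ψ : MulAut (F n)) (g : F n) : Prop :=
  ∀ x, ψ x * (g * x * g⁻¹)⁻¹ ∈ K

/-- on the set `A` of automorphisms of `F n` all finite index subgroups of `Aut (F n)` are
congruence subgroups -/
def Cong (n : ℕ) (A : Set (MulAut (F n))) : Prop :=
  ∀ V : Subgroup (MulAut (F n)), V.FiniteIndex →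
    ∃ K : Subgroup (F n), K.Characteristic ∧ K.FiniteIndex ∧ ∀ ψ ∈ A, Triv K ψ → ψ ∈ V

/-- on the set `A` of automorphisms of `F n` all normal finite index subgroups of `Out (F n)` are
congruence subgroups -/
def OutCong (n : ℕ) (A : Set (MulAut (F n))) : Prop :=
  ∀ V : Subgroup (MulAut (F n)), V.Normal → V.FiniteIndex → (∀ g, MulAut.conj g ∈ V) →
    ∃ K : Subgroup (F n), K.Characteristic ∧ K.FiniteIndex ∧
      ∀ ψ ∈ A, (∃ g, ConjMod K ψ g) → ψ ∈ V

/-- the inclusion `F n → F (n + 1)` -/
def inc (n : ℕ) : F n →* F (n + 1) := FreeGroup.map Fin.castSucc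

/-- the last generator -/
def tt (n : ℕ) : F (n + 1) := FreeGroup.of (Fin.last n)

/-- homomorphisms on `F (n + 1)` -/
def homExt {n : ℕ} {H : Type} [Group H] (f : F n →* H) (a : H) : F (n + 1) →* H :=
  FreeGroup.lift (fun i => Fin.lastCases (motive := fun _ => H) a
    (fun i => f (FreeGroup.of i)) i)

theorem homExt_tt {n : ℕ} {H : Type} [Group H] (f : F n →* H) (a : H) :
    homExt f a (tt n) = a := by
  simp [homExt, tt]

theorem homExt_comp {n : ℕ} {H : Type} [Group H] (f : F n →* H) (a : H) :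
    (homExt f a).comp (inc n) = f := by
  apply FreeGroup.ext_hom
  intro i
  simp [homExt, inc]

theorem homExt_inc {n : ℕ} {H : Type} [Group H] (f : F n →* H) (a : H) (x : F n) :
    homExt f a (inc n x) = f x :=
  DFunLike.congr_fun (homExt_comp f a) x

theorem hom_ext {n : ℕ} {H : Type} [Group H] {f g : F (n + 1) →* H}
    (h1 : ∀ x, f (inc n x) = g (inc n x)) (h2 : f (tt n) = g (tt n)) : f = g := by
  apply FreeGroup.ext_hom
  intro i
  induction i using Fin.lastCases with
  | last => exact h2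
  | cast i =>
    have := h1 (FreeGroup.of i)
    simpa [inc] using this

theorem inc_injective (n : ℕ) : Function.Injective (inc n) := by
  intro x y h
  have := congrArg (homExt (MonoidHom.id (F n)) 1) h
  simpa [homExt_inc] using this

/-- a homomorphism to the automorphism group -/
def autOf {P G : Type} [Group P] [Group G] (e : P → (G →* G)) (h1 : e 1 = MonoidHom.id G)
    (hm : ∀ p q, e (p * q) = (e p).comp (e q)) : P →* MulAut G where
  toFun p := MonoidHom.toMulEquiv (e p) (e p⁻¹) (by rw [← hm, inv_mul_cancel, h1])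
    (by rw [← hm, mul_inv_cancel, h1])
  map_one' := by
    ext x
    exact DFunLike.congr_fun h1 x
  map_mul' p q := by
    ext x
    exact DFunLike.congr_fun (hm p q) x

theorem autOf_apply {P G : Type} [Group P] [Group G] (e : P → (G →* G))
    (h1 : e 1 = MonoidHom.id G) (hm : ∀ p q, e (p * q) = (e p).comp (e q)) (p : P) (x : G) :
    autOf e h1 hm p x = e p x := rfl

/-- the extension of automorphisms of `F n` to `F (n + 1)` fixing the last generator -/
def extHom (n : ℕ) : MulAut (F n) →* MulAut (F (n + 1)) :=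
  autOf (fun σ => homExt ((inc n).comp σ.toMonoidHom) (tt n))
    (by
      apply hom_ext
      · intro x; rw [homExt_inc]; rfl
      · rw [homExt_tt]; rfl)
    (by
      intro σ τ
      apply hom_ext
      · intro x
        rw [homExt_inc]
        change inc n (σ (τ x)) = homExt _ _ (homExt _ _ (inc n x))
        rw [homExt_inc]
        change _ = homExt _ _ (inc n (τ x))
        rw [homExt_inc]
        rfl
      · rw [homExt_tt, MonoidHom.comp_apply, homExt_tt, homExt_tt])

theorem extHom_inc {n : ℕ} (σ : MulAut (F n)) (x : F n) :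
    extHom n σ (inc n x) = inc n (σ x) := by
  rw [extHom, autOf_apply, homExt_inc]; rfl

theorem extHom_tt {n : ℕ} (σ : MulAut (F n)) : extHom n σ (tt n) = tt n := by
  rw [extHom, autOf_apply, homExt_tt]

/-- the automorphisms fixing `F n` and mapping the last generator `t` to `u⁻¹ t v` -/
def nu (n : ℕ) : F n × F n →* MulAut (F (n + 1)) :=
  autOf (fun p => homExt (inc n) ((inc n p.1)⁻¹ * tt n * inc n p.2))
    (by
      apply hom_ext
      · intro x; rw [homExt_inc]; rfl
      · rw [homExt_tt]; simp)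
    (by
      intro p q
      apply hom_ext
      · intro x
        rw [homExt_inc, MonoidHom.comp_apply, homExt_inc, homExt_inc]
      · rw [homExt_tt, MonoidHom.comp_apply, homExt_tt, map_mul, map_mul, map_inv, homExt_inc,
          homExt_inc, homExt_tt]
        simp only [Prod.fst_mul, Prod.snd_mul, map_mul, mul_inv_rev]
        group)

theorem nu_inc {n : ℕ} (p : F n × F n) (x : F n) : nu n p (inc n x) = inc n x := by
  rw [nu, autOf_apply, homExt_inc]

theorem nu_tt {n : ℕ} (p : F n × F n) :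
    nu n p (tt n) = (inc n p.1)⁻¹ * tt n * inc n p.2 := by
  rw [nu, autOf_apply, homExt_tt]

/-- the automorphisms of `F (n + 1)` which map the subgroup `F n` to itself, by an element of `A`,
and the last generator `t` to `u t v` or `u t⁻¹ v` with `u, v` in `F n` -/
def step {n : ℕ} (A : Set (MulAut (F n))) : Set (MulAut (F (n + 1))) :=
  {ψ | ∃ σ ∈ A, (∀ x, ψ (inc n x) = inc n (σ x)) ∧
    ∃ u v : F n, ψ (tt n) = inc n u * tt n * inc n v ∨
      ψ (tt n) = inc n u * (tt n)⁻¹ * inc n v}

theorem mulAut_ext {n : ℕ} {φ ψ : MulAut (F (n + 1))}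
    (h1 : ∀ x, φ (inc n x) = ψ (inc n x)) (h2 : φ (tt n) = ψ (tt n)) : φ = ψ := by
  have : φ.toMonoidHom = ψ.toMonoidHom := hom_ext h1 h2
  ext x
  exact DFunLike.congr_fun this x

/-- the swap homomorphism -/
noncomputable def swapHom {n : ℕ} {P : Type} [Group P] (lam : F n →* P) :
    F (n + 1) →* Equiv.Perm (P ⊕ P) :=
  homExt ((Equiv.Perm.sumCongrHom P P).comp
    ((MonoidHom.inl _ _).comp ((MulAction.toPermHom P P).comp lam))) (Equiv.sumComm P P)

theorem swapHom_inl {n : ℕ} {P : Type} [Group P] (lam : F n →* P) (u : F n) (z : P) :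
    swapHom lam (inc n u) (Sum.inl z) = Sum.inl (lam u * z) := by
  rw [swapHom, homExt_inc]; rfl

theorem swapHom_inr {n : ℕ} {P : Type} [Group P] (lam : F n →* P) (u : F n) (z : P) :
    swapHom lam (inc n u) (Sum.inr z) = Sum.inr z := by
  rw [swapHom, homExt_inc]; rfl

theorem swapHom_tt {n : ℕ} {P : Type} [Group P] (lam : F n →* P) :
    swapHom lam (tt n) = Equiv.sumComm P P := by
  rw [swapHom, homExt_tt]

theorem swapHom_key {n : ℕ} {P : Type} [Group P] (lam : F n →* P) (u v : F n)
    (h : swapHom lam (inc n u * tt n * inc n v * (tt n)⁻¹) = 1) : lam u = 1 ∧ lam v = 1 := by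
  rw [map_mul, map_mul, map_mul, map_inv, mul_inv_eq_one] at h
  have h1 := DFunLike.congr_fun h (Sum.inl 1)
  have h2 := DFunLike.congr_fun h (Sum.inr 1)
  simp only [Equiv.Perm.mul_apply, swapHom_inl, swapHom_inr, swapHom_tt,
    Equiv.sumComm_apply, Sum.swap_inl, Sum.swap_inr, mul_one] at h1 h2
  exact ⟨by simpa using h2, by simpa using h1⟩

theorem fi_comap {G G' : Type} [Group G] [Group G'] (f : G' →* G) (H : Subgroup G) [H.Normal]
    [hf : H.FiniteIndex] : (H.comap f).FiniteIndex :=
  ⟨by
    rw [Subgroup.index_comap]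
    exact ne_zero_of_dvd_ne_zero hf.index_ne_zero (Subgroup.relIndex_dvd_index_of_normal _ _)⟩

theorem cong_step {n : ℕ} {A : Set (MulAut (F n))} (h : Cong n A) : Cong (n + 1) (step A) := by
  intro V hV
  set N := V.normalCore with hN
  have hNV : N ≤ V := Subgroup.normalCore_le V
  have hNfi : N.FiniteIndex := inferInstance
  let P := (MulAut (F (n + 1)) ⧸ N) × (MulAut (F (n + 1)) ⧸ N)
  let lam : F n →* P :=
    MonoidHom.prod ((QuotientGroup.mk' N).comp ((nu n).comp (MonoidHom.inl _ _)))
      ((QuotientGroup.mk' N).comp ((nu n).comp (MonoidHom.inr _ _)))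
  obtain ⟨K0, hK0c, hK0f, hK0⟩ := h (N.comap (extHom n)) (fi_comap _ _)
  have hK0n : K0.Normal := inferInstance
  let S := Equiv.Perm (P ⊕ P) × Multiplicative (ZMod 3) × (F n ⧸ K0)
  have : Finite S := inferInstance
  refine ⟨core (n + 1) S, core_char _ _, core_fin _ _, ?_⟩
  intro ψ hψ hK
  obtain ⟨σ, hσ, h1, u, v, h2⟩ := hψ
  have hh : ∀ (f1 : F (n + 1) →* Equiv.Perm (P ⊕ P)) (f2 : F (n + 1) →* Multiplicative (ZMod 3))
      (f3 : F (n + 1) →* F n ⧸ K0) (x : F (n + 1)),
      f1 (ψ x * x⁻¹) = 1 ∧ f2 (ψ x * x⁻¹) = 1 ∧ f3 (ψ x * x⁻¹) = 1 := by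
    intro f1 f2 f3 x
    have := mem_core.1 (hK x) (MonoidHom.prod f1 (MonoidHom.prod f2 f3))
    exact ⟨(Prod.mk_eq_one.1 this).1, Prod.mk_eq_one.1 (Prod.mk_eq_one.1 this).2⟩
  have hsig : σ ∈ N.comap (extHom n) := by
    apply hK0 σ hσ
    intro x
    have := (hh 1 1 (homExt (QuotientGroup.mk' K0) 1) (inc n x)).2.2
    rw [h1, ← map_inv, ← map_mul, homExt_inc] at this
    exact (QuotientGroup.eq_one_iff _).1 this
  rcases h2 with h2 | h2
  · have h3 := (hh (swapHom lam) 1 1 (tt n)).1
    rw [h2] at h3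
    obtain ⟨h4, h5⟩ := swapHom_key lam u v h3
    have h6 : nu n (u, 1) ∈ N := by
      have := (Prod.mk_eq_one.1 h4).1
      exact (QuotientGroup.eq_one_iff _).1 this
    have h7 : nu n (1, v) ∈ N := by
      have := (Prod.mk_eq_one.1 h5).2
      exact (QuotientGroup.eq_one_iff _).1 this
    have h8 : ψ = (nu n (u, 1))⁻¹ * nu n (1, v) * extHom n σ := by
      rw [← map_inv, ← map_mul]
      apply mulAut_ext
      · intro x
        rw [h1, MulAut.mul_apply, extHom_inc, nu_inc]
      · rw [h2, MulAut.mul_apply, extHom_tt, nu_tt]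
        simp
    rw [h8]
    exact hNV (N.mul_mem (N.mul_mem (N.inv_mem h6) h7) hsig)
  · exfalso
    have h3 := (hh 1 (homExt 1 (Multiplicative.ofAdd 1)) 1 (tt n)).2.1
    rw [h2] at h3
    simp only [map_mul, map_inv, homExt_inc, homExt_tt, MonoidHom.one_apply, one_mul,
      mul_one] at h3
    revert h3
    decide

end Pool.Agent.R387.TC
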