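import Pool.Agent.R387.TC.Basic

/-!
# Malnormality of `F n` in `F (n + 1)`, in finite quotients
-/

set_option autoImplicit false

namespace Pool.Agent.R387.TC

section affine

variable {Q : Type} [Group Q]

/-- translations of functions on a group with values modulo `2` -/
def trans : Q →* Equiv.Perm (Q → ZMod 2) where
  toFun g :=
    { toFun := fun f y => f (g⁻¹ * y)
      invFun := fun f y => f (g * y)
      left_inv := fun f => by ext y; simp
      right_inv := fun f => by ext y; simp }
  map_one' := by ext f y; simp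
  map_mul' g h := by ext f y; simp [mul_assoc]

theorem trans_apply (g : Q) (f : Q → ZMod 2) (y : Q) : trans g f y = f (g⁻¹ * y) := rfl

open Classical in
/-- the function with value `1` at `g` and `0` elsewhere -/
noncomputable def delta (g : Q) : Q → ZMod 2 := fun y => if y = g then 1 else 0

theorem trans_delta (g h : Q) : trans g (delta h) = delta (g * h) := by
  ext y
  simp only [trans_apply, delta]
  congr 1
  exact propext ⟨fun e => by rw [← e]; group, fun e => by rw [e]; group⟩

/-- adding `delta 1` -/
noncomputable def shift : Equiv.Perm (Q → ZMod 2) := Equiv.addRight (delta 1)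

end affine

section aff

variable {n : ℕ} {Q : Type} [Group Q] (q : F n →* Q) (i0 : Fin n)

/-- the affine action of the free group on functions on a quotient: the generator `i0` has the
translation part `delta 1` -/
noncomputable def aff : F n →* Equiv.Perm (Q → ZMod 2) :=
  FreeGroup.lift (fun j => if j = i0 then shift * trans (q (FreeGroup.of j)) else
    trans (q (FreeGroup.of j)))

theorem aff_add (w : F n) :
    ∀ f h : Q → ZMod 2, aff q i0 w (f + h) = aff q i0 w f + trans (q w) h := by
  induction w using FreeGroup.induction_on with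
  | C1 => intro f h; rw [map_one, map_one, map_one]; rfl
  | of j =>
    intro f h
    rw [aff, FreeGroup.lift_apply_of]
    split_ifs
    · change (trans (q (FreeGroup.of j)) (f + h)) + delta 1 =
        (trans (q (FreeGroup.of j)) f + delta 1) + trans (q (FreeGroup.of j)) h
      have : trans (q (FreeGroup.of j)) (f + h) =
        trans (q (FreeGroup.of j)) f + trans (q (FreeGroup.of j)) h := rfl
      rw [this]
      abel
    · rfl
  | inv_of j hx =>
    intro f h
    apply (aff q i0 (FreeGroup.of j)).injective
    rw [map_inv, map_inv, map_inv, hx]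
    simp
  | mul x y hx hy =>
    intro f h
    rw [map_mul, map_mul, map_mul, Equiv.Perm.mul_apply, Equiv.Perm.mul_apply,
      Equiv.Perm.mul_apply, hy, hx]

/-- the translation part -/
noncomputable def cc (w : F n) : Q → ZMod 2 := aff q i0 w 0

theorem cc_mul (x y : F n) : cc q i0 (x * y) = cc q i0 x + trans (q x) (cc q i0 y) := by
  unfold cc
  rw [map_mul, Equiv.Perm.mul_apply]
  have := aff_add q i0 x 0 (aff q i0 y 0)
  rwa [zero_add] at this

theorem cc_one : cc q i0 1 = 0 := by
  unfold cc
  rw [map_one]; rfl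

theorem cc_inv (x : F n) : trans (q x) (cc q i0 x⁻¹) = - cc q i0 x := by
  have := cc_mul q i0 x x⁻¹
  rw [mul_inv_cancel, cc_one] at this
  exact (neg_eq_of_add_eq_zero_right this.symm).symm

theorem cc_of_ne {j : Fin n} (hj : j ≠ i0) : cc q i0 (FreeGroup.of j) = 0 := by
  unfold cc
  rw [aff, FreeGroup.lift_apply_of, if_neg hj]
  rfl

theorem cc_of_eq : cc q i0 (FreeGroup.of i0) = delta 1 := by
  unfold cc
  rw [aff, FreeGroup.lift_apply_of, if_pos rfl]
  change (trans (q (FreeGroup.of i0)) (0 : Q → ZMod 2)) + delta 1 = delta 1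
  have : trans (q (FreeGroup.of i0)) (0 : Q → ZMod 2) = 0 := rfl
  rw [this, zero_add]

/-- the translation parts of the elements of a subgroup of generators are supported on the image -/
theorem cc_support (H0 : Subgroup Q) (S : Subgroup (F n)) (gen : Set (F n))
    (hS : S = Subgroup.closure gen) (hg : ∀ w ∈ gen, q w ∈ H0 ∧ ∀ z, z ∉ H0 → cc q i0 w z = 0) :
    ∀ w ∈ S, q w ∈ H0 ∧ ∀ z, z ∉ H0 → cc q i0 w z = 0 := by
  intro w hw
  rw [hS] at hw
  induction hw using Subgroup.closure_induction with
  | mem x hx => exact hg x hx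
  | one => exact ⟨by rw [map_one]; exact H0.one_mem, fun z _ => by rw [cc_one]; rfl⟩
  | mul x y _ _ hx hy =>
    refine ⟨by rw [map_mul]; exact H0.mul_mem hx.1 hy.1, fun z hz => ?_⟩
    rw [cc_mul, Pi.add_apply, hx.2 z hz, trans_apply, hy.2, add_zero]
    intro h
    apply hz
    have := H0.mul_mem hx.1 h
    simpa using this
  | inv x _ hx =>
    refine ⟨by rw [map_inv]; exact H0.inv_mem hx.1, fun z hz => ?_⟩
    have h1 := congrFun (cc_inv q i0 x) (q x * z)
    rw [trans_apply, inv_mul_cancel_left, Pi.neg_apply, hx.2, neg_zero] at h1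
    · exact h1
    · intro h
      apply hz
      have := H0.mul_mem (H0.inv_mem hx.1) h
      simpa using this

/-- If `g x₀ g⁻¹` has the same translation part as an element `y` of the subgroup `S` and the same
image in `Q` then the image of `g` is in the image of `S`. -/
theorem malnormal [Finite Q] (H0 : Subgroup Q) (g y : F n) (hy : q y ∈ H0)
    (hy' : ∀ z, z ∉ H0 → cc q i0 y z = 0)
    (h1 : cc q i0 (g * FreeGroup.of i0 * g⁻¹) = cc q i0 y)
    (h2 : q (g * FreeGroup.of i0 * g⁻¹) = q y) : q g ∈ H0 := by
  classical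
  by_contra hg
  have : Fintype H0 := Fintype.ofFinite _
  have e1 : cc q i0 (g * FreeGroup.of i0 * g⁻¹) =
      cc q i0 g + delta (q g) - trans (q y) (cc q i0 g) := by
    rw [cc_mul, cc_mul, cc_of_eq, trans_delta, mul_one]
    have e2 : trans (q (g * FreeGroup.of i0)) (cc q i0 g⁻¹) = - trans (q y) (cc q i0 g) := by
      have e3 : q (g * FreeGroup.of i0) = q y * q g := by
        rw [← h2, ← map_mul]
        congr 1
        group
      rw [e3, map_mul, Equiv.Perm.mul_apply, cc_inv]
      rfl
    rw [e2, sub_eq_add_neg]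
  rw [e1] at h1
  have h3 : ∀ b : H0, cc q i0 g (b.1 * q g) + delta (q g) (b.1 * q g) -
      cc q i0 g ((q y)⁻¹ * (b.1 * q g)) = 0 := by
    intro b
    have := congrFun h1 (b.1 * q g)
    rw [Pi.sub_apply, Pi.add_apply, trans_apply] at this
    rw [this]
    apply hy'
    intro h
    apply hg
    have := H0.mul_mem (H0.inv_mem b.2) h
    simpa using this
  have h4 : ∑ b : H0, (cc q i0 g (b.1 * q g) + delta (q g) (b.1 * q g) -
      cc q i0 g ((q y)⁻¹ * (b.1 * q g))) = 0 := Finset.sum_eq_zero fun b _ => h3 b
  rw [Finset.sum_sub_distrib, Finset.sum_add_distrib] at h4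
  have h5 : ∑ b : H0, cc q i0 g ((q y)⁻¹ * (b.1 * q g)) = ∑ b : H0, cc q i0 g (b.1 * q g) := by
    refine Fintype.sum_equiv (Equiv.mulLeft (⟨q y, hy⟩ : H0)⁻¹) _ _ fun b => ?_
    simp [mul_assoc]
  have h6 : ∑ b : H0, delta (q g) (b.1 * q g) = 1 := by
    rw [Finset.sum_eq_single (1 : H0)]
    · simp [delta]
    · intro b _ hb
      simp only [delta]
      rw [if_neg]
      intro h
      apply hb
      have : b.1 = 1 := by simpa using h
      exact Subtype.ext this
    · intro h; exact absurd (Finset.mem_univ _) h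
  rw [h5, h6] at h4
  have : (1 : ZMod 2) = 0 := by
    rw [← h4]; ring
  exact one_ne_zero this

end aff

/-- `F n` is the subgroup generated by the first `n` generators -/
theorem range_inc (n : ℕ) :
    (inc n).range = Subgroup.closure (Set.range fun i : Fin n =>
      (FreeGroup.of (Fin.castSucc i) : F (n + 1))) := by
  have h : (⊤ : Subgroup (F n)) = Subgroup.closure (Set.range FreeGroup.of) :=
    (FreeGroup.closure_range_of (Fin n)).symm
  rw [MonoidHom.range_eq_map, h, MonoidHom.map_closure]
  congr 1
  rw [← Set.range_comp]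
  congr 1

/-- the malnormality lemma -/
theorem maln {n : ℕ} (i0 : Fin n) (L : Subgroup (F (n + 1))) [L.Normal] [L.FiniteIndex] :
    ∃ K : Subgroup (F (n + 1)), K.Characteristic ∧ K.FiniteIndex ∧ K ≤ L ∧
      ∀ g y, g * inc n (FreeGroup.of i0) * g⁻¹ * (inc n y)⁻¹ ∈ K →
        ∃ y', g⁻¹ * inc n y' ∈ L := by
  let Q := F (n + 1) ⧸ L
  let q : F (n + 1) →* Q := QuotientGroup.mk' L
  let R := Equiv.Perm (Q → ZMod 2) × Q
  have hR : Finite R := inferInstance
  refine ⟨core (n + 1) R, core_char _ _, core_fin _ _, ?_, ?_⟩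
  · intro x hx
    have := mem_core.1 hx (MonoidHom.prod 1 q)
    exact (QuotientGroup.eq_one_iff x).1 (Prod.mk_eq_one.1 this).2
  · intro g y hgy
    have h0 := mem_core.1 hgy (MonoidHom.prod (aff q (Fin.castSucc i0)) q)
    have h1 := (Prod.mk_eq_one.1 h0).1
    have h2 := (Prod.mk_eq_one.1 h0).2
    rw [map_mul, map_inv, mul_inv_eq_one] at h1
    change q (_ * _) = 1 at h2
    rw [map_mul, map_inv, mul_inv_eq_one] at h2
    have hi : inc n (FreeGroup.of i0) = FreeGroup.of (Fin.castSucc i0) := by simp [inc]
    rw [hi] at h1 h2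
    have hsup := cc_support q (Fin.castSucc i0) ((inc n).range.map q) (inc n).range _
      (range_inc n) (by
        rintro _ ⟨j, rfl⟩
        refine ⟨Subgroup.mem_map_of_mem _ ⟨FreeGroup.of j, by simp [inc]⟩, fun z hz => ?_⟩
        by_cases hj : Fin.castSucc j = Fin.castSucc i0
        · simp only [hj]
          rw [cc_of_eq]
          simp only [delta]
          rw [if_neg]
          rintro rfl
          exact hz (Subgroup.one_mem _)
        · simp only
          rw [cc_of_ne q _ hj]
          rfl) (inc n y) ⟨y, rfl⟩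
    have := malnormal q (Fin.castSucc i0) ((inc n).range.map q) g (inc n y) hsup.1 hsup.2
      (by unfold cc; rw [h1]) h2
    obtain ⟨_, ⟨y', rfl⟩, hy'⟩ := this
    refine ⟨y', ?_⟩
    have h3 : q (g⁻¹ * inc n y') = 1 := by
      rw [map_mul, map_inv, hy', inv_mul_cancel]
    exact (QuotientGroup.eq_one_iff _).1 h3

end Pool.Agent.R387.TC
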