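import Pool.Agent.R387.TC.Maln

/-!
# The step from `F n` to `F (n + 1)`
-/

set_option autoImplicit false

namespace Pool.Agent.R387.TC

/-- Elements `g` such that some `ψ ∈ A` acts as conjugation by `g` modulo a deep subgroup are close
to `H`. -/
def Norm (n : ℕ) (A : Set (MulAut (F n))) (H : Subgroup (F n)) : Prop :=
  ∀ L : Subgroup (F n), L.Normal → L.FiniteIndex →
    ∃ K : Subgroup (F n), K.Characteristic ∧ K.FiniteIndex ∧ K ≤ L ∧
      ∀ ψ ∈ A, ∀ g, ConjMod K ψ g → ∃ h ∈ H, g⁻¹ * h ∈ L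

theorem norm_top (n : ℕ) (A : Set (MulAut (F n))) : Norm n A ⊤ := by
  intro L hL hf
  refine ⟨core n (F n ⧸ L), core_char _ _, core_fin _ _, ?_, ?_⟩
  · intro x hx
    exact (QuotientGroup.eq_one_iff x).1 (mem_core.1 hx (QuotientGroup.mk' L))
  · intro ψ _ g _
    exact ⟨g, trivial, by rw [inv_mul_cancel]; exact L.one_mem⟩

/-- `A` is stable under composition with the conjugations by elements of `H` -/
def Stab {n : ℕ} (A : Set (MulAut (F n))) (H : Subgroup (F n)) : Prop :=
  ∀ h ∈ H, ∀ ψ ∈ A, MulAut.conj h * ψ ∈ A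

theorem out_of_norm {n : ℕ} {A : Set (MulAut (F n))} {H : Subgroup (F n)} (h1 : Cong n A)
    (h2 : Norm n A H) (h3 : Stab A H) : OutCong n A := by
  intro V _ hV hinn
  obtain ⟨K1, hc1, hf1, hK1⟩ := h1 V hV
  obtain ⟨K, hc, hf, hKK1, hK⟩ := h2 K1 inferInstance hf1
  refine ⟨K, hc, hf, ?_⟩
  rintro ψ hψ ⟨g, hg⟩
  obtain ⟨h, hh, hgh⟩ := hK ψ hψ g hg
  have h4 : MulAut.conj h⁻¹ * ψ ∈ V := by
    apply hK1 _ (h3 _ (H.inv_mem hh) ψ hψ)
    intro x
    have e1 : (QuotientGroup.mk' K1 g) = QuotientGroup.mk' K1 h := by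
      have : QuotientGroup.mk' K1 (g⁻¹ * h) = 1 := (QuotientGroup.eq_one_iff _).2 hgh
      rw [map_mul, map_inv, inv_mul_eq_one] at this
      exact this
    have e2 : QuotientGroup.mk' K1 (ψ x) = QuotientGroup.mk' K1 (g * x * g⁻¹) := by
      have : QuotientGroup.mk' K1 (ψ x * (g * x * g⁻¹)⁻¹) = 1 :=
        (QuotientGroup.eq_one_iff _).2 (hKK1 (hg x))
      rw [map_mul, map_inv, mul_inv_eq_one] at this
      exact this
    apply (QuotientGroup.eq_one_iff _).1
    change QuotientGroup.mk' K1 (_ * _) = 1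
    rw [MulAut.mul_apply, MulAut.conj_apply]
    simp only [map_mul, map_inv, inv_inv] at e2 ⊢
    rw [e2, e1]
    group
  have h5 : ψ = MulAut.conj h * (MulAut.conj h⁻¹ * ψ) := by
    rw [← mul_assoc, ← map_mul, mul_inv_cancel, map_one, one_mul]
  rw [h5]
  exact V.mul_mem (hinn h) h4

theorem stab_step {n : ℕ} {A : Set (MulAut (F n))} {H : Subgroup (F n)} (h : Stab A H) :
    Stab (step A) (H.map (inc n)) := by
  rintro _ ⟨y, hy, rfl⟩ ψ ⟨σ, hσ, h1, u, v, h2⟩
  refine ⟨MulAut.conj y * σ, h y hy σ hσ, ?_, y * u, v * y⁻¹, ?_⟩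
  · intro x
    rw [MulAut.mul_apply, h1, MulAut.conj_apply, MulAut.mul_apply, MulAut.conj_apply, map_mul,
      map_mul, map_inv]
  · rw [MulAut.mul_apply, MulAut.conj_apply, map_mul, map_mul, map_inv]
    rcases h2 with h2 | h2
    · left; rw [h2]; group
    · right; rw [h2]; group

theorem norm_step {n : ℕ} (i0 : Fin n) {A : Set (MulAut (F n))} {H : Subgroup (F n)}
    (h : Norm n A H) : Norm (n + 1) (step A) (H.map (inc n)) := by
  intro L' hL' hf'
  obtain ⟨K0, hc0, hf0, hK0L, hK0⟩ := h (L'.comap (inc n)) inferInstance (fi_comap _ _)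
  have hn0 : K0.Normal := inferInstance
  let κ : F (n + 1) →* F n ⧸ K0 := homExt (QuotientGroup.mk' K0) 1
  have hκ : κ.ker.FiniteIndex := inferInstance
  obtain ⟨K, hc, hf, hKL, hK⟩ := maln i0 (L' ⊓ κ.ker)
  refine ⟨K, hc, hf, hKL.trans inf_le_left, ?_⟩
  rintro ψ ⟨σ, hσ, h1, u, v, h2⟩ g hg
  have hx0 := hg (inc n (FreeGroup.of i0))
  rw [h1] at hx0
  obtain ⟨y', hy'⟩ := hK g (σ (FreeGroup.of i0)) (by
    have := K.inv_mem hx0
    rwa [mul_inv_rev, inv_inv] at this)
  have hκg : κ g = QuotientGroup.mk' K0 y' := by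
    have : κ (g⁻¹ * inc n y') = 1 := hy'.2
    rw [map_mul, map_inv, inv_mul_eq_one] at this
    rw [this]
    exact homExt_inc _ _ _
  obtain ⟨w, hw, hw'⟩ := hK0 σ hσ y' (by
    intro x
    have h3 : κ (ψ (inc n x) * (g * inc n x * g⁻¹)⁻¹) = 1 := (hKL (hg (inc n x))).2
    rw [h1, map_mul, map_inv, map_mul, map_mul, map_inv, hκg] at h3
    have h4 : ∀ z, κ (inc n z) = QuotientGroup.mk' K0 z := fun z => homExt_inc _ _ _
    rw [h4, h4, ← map_inv, ← map_mul, ← map_mul, ← map_inv, ← map_mul] at h3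
    exact (QuotientGroup.eq_one_iff _).1 h3)
  refine ⟨inc n w, Subgroup.mem_map_of_mem _ hw, ?_⟩
  have h5 : inc n (y'⁻¹ * w) ∈ L' := hw'
  have h6 := L'.mul_mem hy'.1 h5
  rw [map_mul, map_inv] at h6
  have e : g⁻¹ * inc n y' * ((inc n y')⁻¹ * inc n w) = g⁻¹ * inc n w := by group
  rwa [e] at h6

/-- Control of the centre: for every normal subgroup `M` of finite index of `F (n + 1)`, `n ≥ 1`,
there is `K` such that the elements which are central modulo `K` are in `M`. -/
theorem centre {n : ℕ} (i0 : Fin n) (M : Subgroup (F (n + 1))) [M.Normal] [M.FiniteIndex] :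
    ∃ K : Subgroup (F (n + 1)), K.Characteristic ∧ K.FiniteIndex ∧
      ∀ g, (∀ x, g * x * g⁻¹ * x⁻¹ ∈ K) → g ∈ M := by
  let P := F (n + 1) ⧸ M
  let q : F (n + 1) →* P := QuotientGroup.mk' M
  let θ : F (n + 1) →* Equiv.Perm (P ⊕ P) := swapHom (q.comp (inc n))
  have hθ : θ.ker.FiniteIndex := inferInstance
  obtain ⟨K, hc, hf, hKL, hK⟩ := maln i0 (M ⊓ θ.ker)
  refine ⟨K, hc, hf, fun g hg => ?_⟩
  obtain ⟨y, hy⟩ := hK g (FreeGroup.of i0) (hg _)
  have h1 : θ g = θ (inc n y) := by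
    have : θ (g⁻¹ * inc n y) = 1 := hy.2
    rwa [map_mul, map_inv, inv_mul_eq_one] at this
  have h2 : θ (g * tt n * g⁻¹ * (tt n)⁻¹) = 1 := (hKL (hg (tt n))).2
  have h3 : θ (inc n y * tt n * inc n y⁻¹ * (tt n)⁻¹) = 1 := by
    rw [map_mul, map_mul, map_mul, map_inv, map_inv] at h2
    rw [map_mul, map_mul, map_mul, map_inv, map_inv, map_inv, ← h1]
    exact h2
  have h4 := (swapHom_key (q.comp (inc n)) y y⁻¹ h3).1
  have h5 : q g = 1 := by
    have : q (g⁻¹ * inc n y) = 1 := (QuotientGroup.eq_one_iff _).2 hy.1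
    rw [map_mul, map_inv, inv_mul_eq_one] at this
    rw [this]
    exact h4
  exact (QuotientGroup.eq_one_iff _).1 h5

/-- the automorphisms acting trivially modulo `K` -/
def trivSub {n : ℕ} (K : Subgroup (F n)) [K.Characteristic] : Subgroup (MulAut (F n)) where
  carrier := {ψ | Triv K ψ}
  mul_mem' := by
    intro a b ha hb x
    have e : (a * b) x * x⁻¹ = a (b x) * (b x)⁻¹ * (b x * x⁻¹) := by
      rw [MulAut.mul_apply]; group
    rw [e]
    exact mul_mem (ha _) (hb _)
  one_mem' := by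
    intro x
    rw [MulAut.one_apply, mul_inv_cancel]
    exact K.one_mem
  inv_mem' := by
    intro a ha x
    have h := ha (a⁻¹ x)
    rw [MulAut.apply_inv_self] at h
    have := K.inv_mem h
    rwa [mul_inv_rev, inv_inv] at this

instance trivSub_normal {n : ℕ} (K : Subgroup (F n)) [hK : K.Characteristic] :
    (trivSub K).Normal := by
  constructor
  intro a ha b x
  have h := ha (b⁻¹ x)
  have h2 : b (a (b⁻¹ x) * (b⁻¹ x)⁻¹) ∈ K := by
    have := (Subgroup.characteristic_iff_le_comap.1 hK b) h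
    exact this
  rw [map_mul, map_inv, MulAut.apply_inv_self] at h2
  exact h2

theorem trivSub_fin {n : ℕ} (K : Subgroup (F n)) [hK : K.Characteristic] [hf : K.FiniteIndex] :
    (trivSub K).FiniteIndex := by
  have hn : K.Normal := inferInstance
  -- automorphisms act on the finite set of homomorphisms to `F n ⧸ K`
  let act : MulAut (F n) →* Equiv.Perm (F n →* F n ⧸ K) :=
    { toFun := fun ψ =>
        { toFun := fun f => f.comp ((ψ⁻¹ : MulAut (F n)) : F n →* F n)
          invFun := fun f => f.comp ((ψ : MulAut (F n)) : F n →* F n)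
          left_inv := fun f => by
            ext x
            simp
          right_inv := fun f => by
            ext x
            simp }
      map_one' := by
        ext f x
        simp
      map_mul' := by
        intro a b
        ext f x
        simp }
  have h1 : act.ker.FiniteIndex := inferInstance
  have h2 : act.ker ≤ trivSub K := by
    intro ψ hψ
    rw [← inv_mem_iff]
    intro x
    have h3 : act ψ (QuotientGroup.mk' K) = QuotientGroup.mk' K := by
      rw [MonoidHom.mem_ker.1 hψ]; rfl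
    have h4 := DFunLike.congr_fun h3 x
    change QuotientGroup.mk' K (ψ⁻¹ x) = QuotientGroup.mk' K x at h4
    apply (QuotientGroup.eq_one_iff _).1
    change QuotientGroup.mk' K (_ * _) = 1
    rw [map_mul, map_inv, h4, mul_inv_cancel]
  exact Subgroup.finiteIndex_of_le h2

/-- the congruence property for `Out (F (n + 1))`, `n ≥ 1`, implies that for `Aut (F (n + 1))` -/
theorem cong_of_out {n : ℕ} (i0 : Fin n) (h : OutCong (n + 1) Set.univ) :
    Cong (n + 1) Set.univ := by
  intro V hV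
  set N := V.normalCore with hN
  have hNV : N ≤ V := Subgroup.normalCore_le V
  have hNfi : N.FiniteIndex := inferInstance
  have hMfi : (N.comap MulAut.conj).FiniteIndex := fi_comap _ _
  obtain ⟨M2, hc2, hf2, hM2⟩ := centre i0 (N.comap MulAut.conj)
  have hT := trivSub_fin M2
  let N2 := N ⊓ trivSub M2
  have hN2n : N2.Normal := inferInstance
  have hN2f : N2.FiniteIndex := inferInstance
  let I : Subgroup (MulAut (F (n + 1))) := (MulAut.conj : F (n + 1) →* _).range
  have hI : I.Normal := by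
    constructor
    rintro _ ⟨g, rfl⟩ ψ
    refine ⟨ψ g, ?_⟩
    ext x
    simp [MulAut.conj_apply]
  obtain ⟨K, hcK, hfK, hK⟩ := h (N2 ⊔ I) inferInstance
    (Subgroup.finiteIndex_of_le (le_sup_left : N2 ≤ N2 ⊔ I))
    (fun g => (le_sup_right : I ≤ N2 ⊔ I) ⟨g, rfl⟩)
  have hcKM : (K ⊓ M2).Characteristic := by
    rw [Subgroup.characteristic_iff_le_comap] at hcK hc2 ⊢
    intro φ x hx
    exact ⟨hcK φ hx.1, hc2 φ hx.2⟩
  refine ⟨K ⊓ M2, hcKM, inferInstance, ?_⟩
  intro ψ _ hψ
  have h1 : ψ ∈ N2 ⊔ I := hK ψ trivial ⟨1, fun x => by simpa using (hψ x).1⟩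
  rw [← SetLike.mem_coe, Subgroup.normal_mul] at h1
  obtain ⟨v, hv, _, ⟨g, rfl⟩, rfl⟩ := Set.mem_mul.1 h1
  have h2 : MulAut.conj g ∈ trivSub M2 := by
    have h3 : v * MulAut.conj g ∈ trivSub M2 := fun x => (hψ x).2
    have h4 := (trivSub M2).mul_mem ((trivSub M2).inv_mem hv.2) h3
    rwa [inv_mul_cancel_left] at h4
  have h5 : g ∈ N.comap MulAut.conj := hM2 g (fun x => by
    have := h2 x
    rwa [MulAut.conj_apply] at this)
  exact hNV (N.mul_mem hv.1 h5)

end Pool.Agent.R387.TC
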